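import Mathlib
import Pool.Agent.H.MP_e98f69_an.E.Stmt

/-!
A dichotomy for the boundary of a Siegel disc: in particular for polynomials, either the impression of
every prime end is the whole boundary, or the boundary contains no periodic points and carries no entropy.
-/

set_option autoImplicit false

open Pool.Agent.H.MP_e98f69_an

namespace Pool.Agent.Results.MP_e98f69_an.Dichotomy

/-- Let `S` be a bounded Siegel disc of a rational map `f`. Suppose that `f` is a polynomial of degree at least two and the
boundary of `S` lies in the Julia set, or, more generally, that there is a connected open set `U` disjoint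
from the closure of `S` whose closure contains the boundary of `S`. Then either the impression of
every prime end of `S` is the whole boundary of `S`, or the impressions of different prime ends are disjoint,
the boundary of `S` contains no periodic point, and the topological entropy of `f` on the boundary is zero. -/
theorem result (P Q : Polynomial ℂ) (S : Set ℂ) (θ : ℝ) (φ : ℂ → ℂ)
    (h : IsSiegelDisc P Q S θ φ)
    (hU : (Q = 1 ∧ 2 ≤ P.natDegree ∧ frontier S ⊆ frontier (FilledJulia P)) ∨
      ∃ U : Set ℂ, IsOpen U ∧ IsPreconnected U ∧ Disjoint U (closure S) ∧ frontier S ⊆ closure U) :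
    (∀ ζ : ℂ, ‖ζ‖ = 1 → Impression S φ ζ = frontier S) ∨
    ((∀ ζ₁ ζ₂ : ℂ, ‖ζ₁‖ = 1 → ‖ζ₂‖ = 1 → ζ₁ ≠ ζ₂ →
        Disjoint (Impression S φ ζ₁) (Impression S φ ζ₂)) ∧
      (∀ x ∈ frontier S, ∀ n : ℕ, 1 ≤ n → (fun z : ℂ => P.eval z / Q.eval z)^[n] x ≠ x) ∧
      Dynamics.coverEntropy (fun z : ℂ => P.eval z / Q.eval z) (frontier S) = 0) := by
  have X := h.siegel
  have hU' : ∃ U : Set ℂ, IsOpen U ∧ IsPreconnected U ∧ Disjoint U (closure S) ∧
      frontier S ⊆ closure U := by
    rcases hU with ⟨hQ, hdeg, hfr⟩ | hU
    · have hK : IsClosed (FilledJulia P) := by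
        rw [← isOpen_compl_iff, filledJulia_compl]
        exact isOpen_Bas hdeg
      refine ⟨Bas (fun z => P.eval z), isOpen_Bas hdeg, isPreconnected_Bas hdeg, ?_, ?_⟩
      · rw [Set.disjoint_left]
        intro z hz hzS
        have hz' : z ∉ FilledJulia P := hz
        by_cases hzS' : z ∈ S
        · apply hz'
          show Bornology.IsBounded (Set.range fun n : ℕ => (fun w : ℂ => P.eval w)^[n] z)
          refine X.bdd.subset ?_
          rintro _ ⟨n, rfl⟩
          have hm : ∀ n : ℕ, (fun w : ℂ => P.eval w)^[n] z ∈ S := by
            intro n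
            induction n with
            | zero => exact hzS'
            | succ n ih =>
              rw [Function.iterate_succ_apply']
              have h1 := (X.dyn _ ih).1
              simp only [rat, hQ, Polynomial.eval_one, div_one] at h1
              exact h1
          exact hm n
        · have hzfr : z ∈ frontier S := by
            rw [frontier, X.op.interior_eq]
            exact ⟨hzS, hzS'⟩
          exact hz' (hK.frontier_subset (hfr hzfr))
      · intro z hz
        have h1 := hfr hz
        rw [← frontier_compl, filledJulia_compl] at h1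
        exact frontier_subset_closure h1
    · exact hU
  obtain ⟨U, h1, h2, h3, h4⟩ := hU'
  rcases X.dichotomy h1 h2 h3 h4 with h5 | ⟨h5, h6, h7⟩
  · left
    intro ζ hζ
    ext x
    exact ⟨fun hx => X.rel_frontier hx hζ, fun hx => h5 ζ hζ x hx⟩
  · right
    refine ⟨?_, h6, h7⟩
    intro ζ₁ ζ₂ hζ₁ hζ₂ hne
    rw [Set.disjoint_left]
    intro x hx1 hx2
    exact h5 ζ₁ ζ₂ hζ₁ hζ₂ hne x hx1 hx2

end Pool.Agent.Results.MP_e98f69_an.Dichotomy
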