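import Mathlib
import Pool.Agent.H.MP_e98f69_an.E.Stmt

/-!
The topological entropy of a rational map on the boundary of a Siegel disc is carried by the set of
points that lie in the impressions of all prime ends.
-/

set_option autoImplicit false

open Pool.Agent.H.MP_e98f69_an

namespace Pool.Agent.Results.MP_e98f69_an.EntropyCore

/-- For every bounded Siegel disc `S` of a rational map `f` the topological entropy of `f` on the boundary of
`S` is equal to the topological entropy of `f` on the core, the closed forward invariant set of the
points that lie in the impression of every prime end of `S` (and equal to `0` if the core is empty, where Mathlib's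
entropy of the empty set is `-∞`). -/
theorem result (P Q : Polynomial ℂ) (S : Set ℂ) (θ : ℝ) (φ : ℂ → ℂ)
    (h : IsSiegelDisc P Q S θ φ) :
    Dynamics.coverEntropy (fun z : ℂ => P.eval z / Q.eval z) (frontier S) =
      max 0 (Dynamics.coverEntropy (fun z : ℂ => P.eval z / Q.eval z) (Core S φ)) :=
  h.siegel.entropy_eq_core

end Pool.Agent.Results.MP_e98f69_an.EntropyCore
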