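import Mathlib
import Pool.Agent.H.MP_e98f69_an.Small

/-!
If a Siegel disc has arbitrarily small prime end impressions (for instance one degenerate
impression) then its boundary contains no cycle except possibly one indifferent fixed point, and
no expanding compact invariant set.
-/

set_option autoImplicit false

open Pool.Agent.H.MP_e98f69_an

namespace Pool.Agent.Results.MP_e98f69_an.OneDegenerate

/-- Let `S` be a bounded Siegel disc of a rational map `f` such that there is no positive lower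
bound for the diameters of the impressions of the prime ends of `S`. Then there is at most one
periodic point of `f` in the boundary of `S`, and if there is one it is a fixed point with
multiplier of modulus one; and for every nonempty compact subset `K` of the boundary with
`f(K) ⊆ K` and every `p` there is a point of `K` with `|(f^p)'| ≤ 1`. -/
theorem result (P Q : Polynomial ℂ) (S : Set ℂ) (θ : ℝ) (φ : ℂ → ℂ)
    (h : IsSiegelDisc P Q S θ φ)
    (hsmall : ∀ ε > 0, ∃ ζ : ℂ, ‖ζ‖ = 1 ∧ ∃ δ > 0, ∀ z ∈ S, ∀ z' ∈ S,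
      ‖φ z - ζ‖ < δ → ‖φ z' - ζ‖ < δ → ‖z - z'‖ < ε) :
    (∃ y : ℂ, ∀ x ∈ frontier S, ∀ n : ℕ, 1 ≤ n →
      (fun z : ℂ => P.eval z / Q.eval z)^[n] x = x →
      x = y ∧ P.eval x / Q.eval x = x ∧ ‖deriv (fun z : ℂ => P.eval z / Q.eval z) x‖ = 1) ∧
    (∀ K ⊆ frontier S, IsCompact K → K.Nonempty → (∀ x ∈ K, P.eval x / Q.eval x ∈ K) →
      ∀ p : ℕ, ∃ x ∈ K, ‖deriv ((fun z : ℂ => P.eval z / Q.eval z)^[p]) x‖ ≤ 1) := by
  have X := h.siegel
  obtain ⟨ζ, hζ, hd⟩ := X.exists_deg hsmall
  constructor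
  · obtain ⟨y, hy⟩ := X.exists_rel' (ζ := ζ) hζ.le
    refine ⟨y, fun x hx n hn hper => ?_⟩
    have h1 := X.one_deg hζ hd hx hn hper
    exact ⟨Deg.unique hd hy h1.2.2, h1.1, h1.2.1⟩
  · intro K hsub hK hne hinv p
    by_contra hcon
    push Not at hcon
    obtain ⟨δ, hδ, h1⟩ := X.large_impressions hK hne hsub hinv hcon
    obtain ⟨δ', hδ', h2⟩ := hd δ hδ
    obtain ⟨z, hz, z', hz', h3, h4, h5⟩ := h1 ζ hζ δ' hδ'
    exact absurd (h2 z hz z' hz' h3 h4) (not_lt.2 h5)

end Pool.Agent.Results.MP_e98f69_an.OneDegenerate
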