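import Mathlib
import Pool.Agent.H.MP_e98f69_an.Statement

/-!
No periodic points and no positive Lyapunov exponents on the boundary of a Siegel disc for which
the set of prime ends with degenerate impression has positive measure.
-/

set_option autoImplicit false

open Pool.Agent.H.MP_e98f69_an

namespace Pool.Agent.Results.MP_e98f69_an.ZeroExponents

/-- Let `S` be a bounded Siegel disc of a rational map such that the inverse of the linearizing map
extends continuously to a set of positive measure on the unit circle. Then the boundary of `S`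
contains no periodic point, and no point with positive upper Lyapunov exponent; in fact
`log |(fⁿ)'| / n` becomes smaller than any given `c > 0` uniformly on the boundary. -/
theorem result (P Q : Polynomial ℂ) (S : Set ℂ) (θ : ℝ) (φ : ℂ → ℂ)
    (h : IsSiegelDisc P Q S θ φ)
    (hpos : MeasureTheory.volume {t : ℝ | t ∈ Set.Icc (0 : ℝ) 1 ∧
      DegenerateAt S φ (Complex.exp (2 * Real.pi * Complex.I * (t : ℂ)))} ≠ 0) :
    (∀ x ∈ frontier S, ∀ n : ℕ, 1 ≤ n → (fun z : ℂ => P.eval z / Q.eval z)^[n] x ≠ x) ∧
    (∀ c : ℝ, 0 < c → ∀ᶠ n : ℕ in Filter.atTop, ∀ x ∈ frontier S,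
      Real.log ‖deriv ((fun z : ℂ => P.eval z / Q.eval z)^[n]) x‖ / (n : ℝ) < c) := by
  have X := h.siegel
  have hae := X.ae_of_pos hpos
  refine ⟨fun x hx n hn => X.no_periodic hae hx hn, fun c hc => ?_⟩
  obtain ⟨N0, hN0⟩ := X.growth hae (ε := c / 2) (by positivity)
  filter_upwards [Filter.eventually_ge_atTop (N0 + 1)] with n hn x hx
  have h1 := hN0 n (by omega) x hx
  have hnpos : (0 : ℝ) < n := by exact_mod_cast (by omega : 0 < n)
  rw [div_lt_iff₀ hnpos]
  have h2 : Real.log ‖deriv ((fun z : ℂ => P.eval z / Q.eval z)^[n]) x‖ ≤ n * (c / 2) := by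
    rcases eq_or_lt_of_le
      (norm_nonneg (deriv ((fun z : ℂ => P.eval z / Q.eval z)^[n]) x)) with h0 | h0
    · rw [← h0, Real.log_zero]
      positivity
    · rw [Real.log_le_iff_le_exp h0]
      exact h1
  have h3 : (n : ℝ) * (c / 2) < c * n := by nlinarith
  exact h2.trans_lt h3

end Pool.Agent.Results.MP_e98f69_an.ZeroExponents
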